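import Pool.Agent.MP_eddcad_an.h19.Sos

set_option autoImplicit false

namespace Pool.Agent.MP_eddcad_an.h19

open MvPolynomial Finset

open ComplexConjugate

variable {σ : Type} [Fintype σ] [DecidableEq σ]

/-- The unit sphere. -/
abbrev Sp (σ : Type) [Fintype σ] : Type := {z : σ → ℂ // ∑ i, z i * conj (z i) = 1}

/-- Value of a functional at `U` and at a point of the sphere. -/
noncomputable def ev (U : MvPolynomial σ (MvPolynomial σ ℂ)) (z : Sp σ) : Fn σ →ₗ[ℂ] ℂ :=
  (aeval z.1 : MvPolynomial σ ℂ →ₐ[ℂ] ℂ).toLinearMap ∘ₗ app U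

omit [DecidableEq σ] in
theorem ev_apply (U : MvPolynomial σ (MvPolynomial σ ℂ)) (z : Sp σ) (l : Fn σ) :
    ev U z l = eval z.1 (l U) := rfl

variable {U : MvPolynomial σ (MvPolynomial σ ℂ)}

theorem Sos.lift {j k : ℕ} {Φ : Sp σ → ℂ} (h : Sos (ker σ j k) (ev U) Φ) :
    Sos (ker σ j (k + 1)) (ev U) Φ := by
  obtain ⟨ι, _, f, hf, h⟩ := h
  refine ⟨ι × σ, inferInstance, fun p => (X p.2 : MvPolynomial σ ℂ) • f p.1,
    fun p => X_smul_mem _ (hf _), fun z => ?_⟩
  rw [h, Fintype.sum_prod_type]
  refine Finset.sum_congr rfl fun i _ => ?_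
  rw [← mul_one (_ * _), ← z.2, Finset.mul_sum]
  refine Finset.sum_congr rfl fun l _ => ?_
  simp only [ev_apply, LinearMap.smul_apply, smul_eq_mul, map_mul, eval_X]
  ring

theorem Sos.lift_le {j k k' : ℕ} {Φ : Sp σ → ℂ} (hk : k ≤ k') (h : Sos (ker σ j k) (ev U) Φ) :
    Sos (ker σ j k') (ev U) Φ := by
  induction hk with
  | refl => exact h
  | step _ ih => exact ih.lift

omit [Fintype σ] [DecidableEq σ] in
theorem monomial_word {k : ℕ} (I : Fin k → σ) :
    (monomial (∑ t, Finsupp.single (I t) 1) 1 : MvPolynomial σ ℂ) = ∏ t, X (I t) := by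
  induction k with
  | zero => simp
  | succ k ih => rw [Fin.sum_univ_succ, Fin.prod_univ_succ, ← ih, X, monomial_mul, one_mul]

theorem exists_minor {j k : ℕ} (hk : k ≤ j) (I J : Fin k → σ) {μ : σ →₀ ℕ}
    (hμ : μ.degree = j - k) : ∃ l ∈ ker σ j k, ∀ P, l P =
      (∏ t, X (J t)) * coeff μ (dW k I P) - (∏ t, X (I t)) * coeff μ (dW k J P) := by
  obtain ⟨c, hc⟩ := coeff_dW (A := MvPolynomial σ ℂ) k I μ
  obtain ⟨c', hc'⟩ := coeff_dW (A := MvPolynomial σ ℂ) k J μ
  have hd : ∀ I : Fin k → σ, (∑ t, Finsupp.single (I t) 1 : σ →₀ ℕ).degree = k := by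
    intro I
    simp [map_sum]
  have hd' : ∀ I : Fin k → σ, (μ + ∑ t, Finsupp.single (I t) 1 : σ →₀ ℕ).degree = j := by
    intro I
    rw [map_add, hd, hμ]
    omega
  have e : ∀ P, (c • gen (∑ t, Finsupp.single (J t) 1) (μ + ∑ t, Finsupp.single (I t) 1) -
      c' • gen (∑ t, Finsupp.single (I t) 1) (μ + ∑ t, Finsupp.single (J t) 1) : Fn σ) P =
      (∏ t, X (J t)) * coeff μ (dW k I P) - (∏ t, X (I t)) * coeff μ (dW k J P) := by
    intro P
    simp only [hc, hc', gen, monomial_word, LinearMap.sub_apply, LinearMap.smul_apply,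
      lcoeff_apply, smul_eq_mul, mul_smul_comm]
  refine ⟨_, ⟨sub_mem (nsmul_mem (gen_mem (hd J) (hd' I)) c)
    (nsmul_mem (gen_mem (hd I) (hd' J)) c'), ?_⟩, e⟩
  refine (e _).trans ?_
  simp only [dW_ell, coeff_C_mul]
  ring

theorem base {j : ℕ} (hU : U.IsHomogeneous j) (k : ℕ) :
    Sos (ker σ j j) (ev U) fun z => j.descFactorial k *
      fk (map (eval z.1) U) (map (eval z.1) U) - nn z.1 k (map (eval z.1) U) := by
  rcases le_or_gt k j with hk | hk
  · refine Sos.lift_le hk ?_
    have h1 : ∀ (I J : Fin k → σ) (μ : mon σ (j - k)), _ := fun I J μ =>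
      exists_minor hk I J (mem_mon.1 μ.2)
    choose l hl hl' using h1
    refine ((Sos.sum Finset.univ fun I _ => Sos.sum Finset.univ fun J _ =>
      Sos.sum Finset.univ fun μ _ => (Sos.one (hl I J μ)).smul (c := wt μ.1)
        (Nat.cast_nonneg _)).smul (c := 1 / 2) (by norm_num)).congr fun z => ?_
    have hp : (map (eval z.1) U).IsHomogeneous j := hU.map _
    have h2 := lagrange (fun I : Fin k → σ => dW k I (map (eval z.1) U)) (fun I => ∏ t, z.1 (I t))
      (by
        simp only [map_prod, ← Finset.prod_mul_distrib]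
        rw [← Fintype.sum_pow fun i => z.1 i * conj (z.1 i), z.2, one_pow])
    rw [sum_dW, sum_fk_dW hp] at h2
    have h3 : ∀ I J : Fin k → σ,
        fk ((∏ t, z.1 (J t)) • dW k I (map (eval z.1) U) - (∏ t, z.1 (I t)) • dW k J (map (eval z.1) U))
          ((∏ t, z.1 (J t)) • dW k I (map (eval z.1) U) - (∏ t, z.1 (I t)) • dW k J (map (eval z.1) U)) =
        ∑ μ : mon σ (j - k), ((wt μ.1 : ℝ) : ℂ) * (ev U z (l I J μ) * conj (ev U z (l I J μ))) := by
      intro I J
      rw [fk_eq (mon σ (j - k)) _ _ (support_subset_mon (IsHomogeneous.sub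
        ((homogeneousSubmodule σ ℂ (j - k)).smul_mem _ (dW_hom hp k I))
        ((homogeneousSubmodule σ ℂ (j - k)).smul_mem _ (dW_hom hp k J)))), ← Finset.sum_coe_sort]
      refine Finset.sum_congr rfl fun μ _ => ?_
      simp only [ev_apply, hl', dW_map, coeff_sub, coeff_smul, coeff_map, map_sub, map_mul,
        map_prod, eval_X, smul_eq_mul, Complex.ofReal_natCast]
    simp only [h3] at h2
    rw [← h2, nn]
    push_cast
    ring
  · refine Sos.zero.congr fun z => ?_
    rw [nn, bb_pow_eq_zero _ hk (hU.map _), Nat.descFactorial_eq_zero_iff_lt.2 hk]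
    simp

theorem desc_id (m k : ℕ) : (m + 1) * (m + 1).descFactorial (k + 1) =
    m.descFactorial (k + 2) + (2 * k + 3) * m.descFactorial (k + 1) +
      (k + 1) ^ 2 * m.descFactorial k := by
  rw [Nat.succ_descFactorial_succ, Nat.descFactorial_succ m (k + 1), Nat.descFactorial_succ m k]
  rcases lt_trichotomy m k with h | rfl | h
  · simp [Nat.descFactorial_eq_zero_iff_lt.2 h]
  · simp only [Nat.sub_self, zero_mul, mul_zero, zero_add]
    ring
  · obtain ⟨e, rfl⟩ : ∃ e, m = k + 1 + e := ⟨m - (k + 1), by omega⟩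
    rw [show k + 1 + e - (k + 1) = e by omega, show k + 1 + e - k = e + 1 by omega]
    ring

theorem step {j : ℕ} (hU : U.IsHomogeneous j) (a k : ℕ) :
    Sos (ker σ j j) (ev U) fun z => (j + a).descFactorial a * (j + a).descFactorial k *
      fk (map (eval z.1) U) (map (eval z.1) U) - nn z.1 k (ell z.1 ^ a * map (eval z.1) U) := by
  induction a generalizing k with
  | zero => simpa using base hU k
  | succ a ih =>
    rcases k with _ | k
    · refine ((ih 1).add (ih 0)).congr fun z => ?_
      have h := nn_zero_ell z.2 (ell z.1 ^ a * map (eval z.1) U)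
      simp only [nn, pow_zero, pow_one, Module.End.one_apply]
      rw [pow_succ', mul_assoc (ell z.1), h, ← add_assoc, Nat.succ_descFactorial_succ]
      simp only [Nat.descFactorial_zero, Nat.descFactorial_one]
      push_cast
      ring
    · refine (((ih (k + 2)).add ((ih (k + 1)).smul (c := 2 * k + 3) (by positivity))).add
        ((ih k).smul (c := (k + 1) ^ 2) (by positivity))).congr fun z => ?_
      have h : (((j + a + 1 : ℕ) : ℂ)) * (j + a + 1).descFactorial (k + 1) =
          (j + a).descFactorial (k + 2) + (2 * k + 3) * (j + a).descFactorial (k + 1) +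
            (k + 1) ^ 2 * (j + a).descFactorial k := by exact_mod_cast desc_id (j + a) k
      rw [pow_succ', mul_assoc (ell z.1), nn_ell z.2, ← add_assoc j, Nat.succ_descFactorial_succ,
        Nat.cast_mul]
      push_cast at h ⊢
      linear_combination ((j + a).descFactorial a *
        fk (map (eval z.1) U) (map (eval z.1) U)) * h

/-- All coefficients have degree at most `e`. -/
def Dg (e : ℕ) (P : MvPolynomial σ (MvPolynomial σ ℂ)) : Prop :=
  ∀ α, (coeff α P).totalDegree ≤ e

omit [DecidableEq σ] in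
theorem Dg.ell_mul {e : ℕ} {P : MvPolynomial σ (MvPolynomial σ ℂ)} (h : Dg e P) :
    Dg (e + 1) (ell X * P) := by
  classical
  intro α
  rw [ell, Finset.sum_mul, coeff_sum]
  refine totalDegree_finsetSum_le fun i _ => ?_
  rw [smul_mul_assoc, coeff_smul, smul_eq_mul, coeff_X_mul']
  split_ifs
  · refine (totalDegree_mul _ _).trans ?_
    rw [totalDegree_X, add_comm]
    exact Nat.add_le_add_right (h _) 1
  · simp

omit [DecidableEq σ] in
theorem Dg.ell_pow {e : ℕ} {P : MvPolynomial σ (MvPolynomial σ ℂ)} (h : Dg e P) (a : ℕ) :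
    Dg (e + a) (ell X ^ a * P) := by
  induction a with
  | zero => simpa using h
  | succ a ih =>
    rw [pow_succ', mul_assoc, ← add_assoc]
    exact ih.ell_mul

theorem deg_bil {e j k : ℕ} (h : Dg e U) {l : Fn σ} (hl : l ∈ bil σ j k) :
    (l U).totalDegree ≤ e + k := by
  refine Submodule.span_induction (p := fun l _ => (l U).totalDegree ≤ e + k) ?_ ?_ ?_ ?_ hl
  · rintro _ ⟨⟨s, α⟩, rfl⟩
    refine (totalDegree_mul _ _).trans ?_
    rw [add_comm e]
    exact Nat.add_le_add ((totalDegree_monomial_le _ _).trans (mem_mon.1 s.2).le) (h _)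
  · simp
  · intro x y _ _ hx hy
    exact (totalDegree_add _ _).trans (max_le hx hy)
  · intro c x _ hx
    exact (totalDegree_smul_le _ _).trans hx

omit [DecidableEq σ] in
theorem map_ell {A B : Type} [CommRing A] [CommRing B] (φ : A →+* B) (a : σ → A) :
    map φ (ell a) = ell fun i => φ (a i) := by
  simp [ell, smul_eq_C_mul]

omit [DecidableEq σ] in
theorem ell_hom {A : Type} [CommRing A] (a : σ → A) : (ell a).IsHomogeneous 1 :=
  IsHomogeneous.sum _ _ _ fun i _ =>
    (homogeneousSubmodule σ A 1).smul_mem _ (isHomogeneous_X A i)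

/-- The matrix inner function: multiplication by a power of the tautological linear form,
completed by few further components. -/
theorem fillers {e j : ℕ} (hU : U.IsHomogeneous j) (hd : Dg e U) (a : ℕ) :
    ∃ (r : ℕ) (g : Fin r → MvPolynomial σ ℂ), r + #(mon σ (2 * j)) ≤ #(mon σ j) ^ 2 ∧
      (∀ t, (g t).totalDegree ≤ e + j) ∧ ∀ z : Sp σ,
      (j + a).descFactorial a *
          ∑ α ∈ mon σ j, wt α * (eval z.1 (coeff α U) * conj (eval z.1 (coeff α U))) =
        ∑ γ ∈ mon σ (j + a), wt γ * (eval z.1 (coeff γ (ell X ^ a * U)) *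
          conj (eval z.1 (coeff γ (ell X ^ a * U)))) +
        ∑ t, eval z.1 (g t) * conj (eval z.1 (g t)) := by
  obtain ⟨r, g, hr, hg, h⟩ := (step hU a 0).reduce
  refine ⟨r, fun t => g t U, le_trans (Nat.add_le_add_right hr _) (finrank_ker j),
    fun t => deg_bil hd (hg t).1, fun z => ?_⟩
  have h1 := h z
  have e1 : ell z.1 ^ a * map (eval z.1) U = map (eval z.1) (ell X ^ a * U) := by
    simp [map_ell]
  have h2 : (ell X ^ a * U).IsHomogeneous (j + a) := by
    simpa [add_comm] using ((ell_hom X).pow a).mul hU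
  simp only [nn, pow_zero, Module.End.one_apply, e1, ev_apply, Nat.descFactorial_zero] at h1
  rw [fk_eq _ _ _ (support_subset_mon (hU.map _)),
    fk_eq _ _ _ (support_subset_mon (h2.map _))] at h1
  simp only [coeff_map] at h1
  rw [← h1]
  push_cast
  ring

end Pool.Agent.MP_eddcad_an.h19
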