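import Pool.Agent.MP_eddcad_an.h19.Block

set_option autoImplicit false

namespace Pool.Agent.MP_eddcad_an.h19

open MvPolynomial Finset

open ComplexConjugate

variable {σ : Type} [Fintype σ] [DecidableEq σ]

/-- Restriction to the coordinate axis `o`. -/
noncomputable def ax (o : σ) : MvPolynomial σ ℂ →ₐ[ℂ] Polynomial ℂ :=
  aeval fun i => if i = o then Polynomial.X else 0

omit [Fintype σ] in
theorem natDegree_ax (o : σ) (p : MvPolynomial σ ℂ) : (ax o p).natDegree ≤ p.totalDegree := by
  have h := aeval_natDegree_le p le_rfl (fun i => if i = o then Polynomial.X else 0) (n := 1)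
    fun i => by split_ifs <;> simp
  rwa [mul_one] at h

theorem ax_coeff (o : σ) (a : ℕ) (β : σ →₀ ℕ) (U : MvPolynomial σ (MvPolynomial σ ℂ)) :
    ax o (coeff (β + Finsupp.single o a) (ell X ^ a * U)) = Polynomial.X ^ a * ax o (coeff β U) := by
  have e : map (ax o : MvPolynomial σ ℂ →+* Polynomial ℂ) (ell (X : σ → MvPolynomial σ ℂ)) =
      monomial (Finsupp.single o 1) Polynomial.X := by
    rw [map_ell, ell, Finset.sum_eq_single o]
    · simp [ax, smul_eq_C_mul, C_mul_X_eq_monomial]
    · intro i _ hi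
      simp [ax, hi]
    · simp
  have h := coeff_map (ax o : MvPolynomial σ ℂ →+* Polynomial ℂ) (ell X ^ a * U)
    (β + Finsupp.single o a)
  rw [map_mul, map_pow, e, monomial_pow, Finsupp.smul_single, smul_eq_mul, mul_one, add_comm β,
    coeff_monomial_mul, coeff_map, add_comm _ β] at h
  exact h.symm

theorem sqrt_mul_sqrt {c : ℝ} (hc : 0 ≤ c) (x : ℂ) :
    ((√c : ℝ) : ℂ) * x * conj (((√c : ℝ) : ℂ) * x) = c * (x * conj x) := by
  have e : ((√c : ℝ) : ℂ) * ((√c : ℝ) : ℂ) = c := by
    rw [← Complex.ofReal_mul, Real.mul_self_sqrt hc]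
  rw [map_mul, Complex.conj_ofReal, ← e]
  ring

/-- Nilpotent feedback: each new input is the last output. -/
theorem chain (o : σ) (j a c : ℕ) (hc : 0 < c) (S : Finset (σ →₀ ℕ)) (hS : S ⊆ mon σ j) :
    ∃ (U : MvPolynomial σ (MvPolynomial σ ℂ)) (r : MvPolynomial σ ℂ), U.support ⊆ S ∧
      Dg ((#S - 1) * a) U ∧ r.totalDegree ≤ #S * a ∧
      (∃ κ : ℂ, κ ≠ 0 ∧ ax o r = Polynomial.C κ * Polynomial.X ^ (#S * a)) ∧
      ∀ z : σ → ℂ, c * ∑ α ∈ S, wt α * (eval z (coeff α U) * conj (eval z (coeff α U))) +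
          eval z r * conj (eval z r) =
        1 + ∑ β ∈ S, wt (β + Finsupp.single o a) *
          (eval z (coeff (β + Finsupp.single o a) (ell X ^ a * U)) *
            conj (eval z (coeff (β + Finsupp.single o a) (ell X ^ a * U)))) := by
  induction S using Finset.induction_on_min_value (fun α : σ →₀ ℕ => α o) with
  | empty => exact ⟨0, 1, by simp, fun _ => by simp, by simp, ⟨1, one_ne_zero, by simp⟩, by simp⟩
  | insert α S hα hmin ih =>
    obtain ⟨U, r, h1, h2, h3, ⟨κ, hκ, h4⟩, h5⟩ := ih ((Finset.subset_insert _ _).trans hS)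
    have hw : (0 : ℝ) < ((c * wt α : ℕ) : ℝ)⁻¹ := by
      have := wt_pos α
      positivity
    set s : ℂ := ((√(((c * wt α : ℕ) : ℝ)⁻¹) : ℝ) : ℂ) with hs
    set s' : ℂ := ((√((wt (α + Finsupp.single o a) : ℕ) : ℝ) : ℝ) : ℂ) with hs'
    have hs0 : s ≠ 0 := Complex.ofReal_ne_zero.2 (Real.sqrt_pos.2 hw).ne'
    have hs0' : s' ≠ 0 :=
      Complex.ofReal_ne_zero.2 (Real.sqrt_pos.2 (by exact_mod_cast wt_pos _)).ne'
    have c1 : coeff α (U + monomial α (C s * r)) = C s * r := by
      rw [coeff_add, notMem_support_iff.1 fun h => hα (h1 h), coeff_monomial, if_pos rfl, zero_add]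
    have c2 : ∀ β ∈ S, coeff β (U + monomial α (C s * r)) = coeff β U := by
      intro β hβ
      rw [coeff_add, coeff_monomial, if_neg (by rintro rfl; exact hα hβ), add_zero]
    have c3 : ∀ β ∈ S, coeff (β + Finsupp.single o a) (ell X ^ a * (U + monomial α (C s * r))) =
        coeff (β + Finsupp.single o a) (ell X ^ a * U) := by
      intro β hβ
      rw [mul_add, coeff_add, coeff_mul_monomial', if_neg, add_zero]
      intro hle
      have hle' : α ≤ β := fun i => by
        by_cases hi : i = o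
        · rw [hi]
          exact hmin β hβ
        · simpa [Finsupp.single_eq_of_ne hi] using hle i
      obtain ⟨δ, rfl⟩ := exists_add_of_le hle'
      have d1 := mem_mon.1 (hS (Finset.mem_insert_self _ _))
      have d2 := mem_mon.1 (hS (Finset.mem_insert_of_mem hβ))
      rw [map_add, d1] at d2
      rw [(Finsupp.degree_eq_zero_iff δ).1 (by omega), add_zero] at hβ
      exact hα hβ
    have hdeg : ∀ (t : ℂ) (p : MvPolynomial σ ℂ), (C t * p).totalDegree ≤ p.totalDegree :=
      fun t p => by simpa using totalDegree_mul (C t) p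
    have hD : Dg (#S * a) (U + monomial α (C s * r)) := by
      intro β
      rw [coeff_add, coeff_monomial]
      refine (totalDegree_add _ _).trans (max_le ((h2 β).trans
        (Nat.mul_le_mul_right _ (Nat.sub_le _ _))) ?_)
      split_ifs
      · exact (hdeg _ _).trans h3
      · simp
    refine ⟨U + monomial α (C s * r),
      C s' * coeff (α + Finsupp.single o a) (ell X ^ a * (U + monomial α (C s * r))),
      ?_, ?_, ?_, ⟨s' * (s * κ), by simp [hs0, hs0', hκ], ?_⟩, fun z => ?_⟩
    · refine support_add.trans (Finset.union_subset (h1.trans (Finset.subset_insert _ _))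
        (support_monomial_subset.trans (by simp)))
    · rwa [Finset.card_insert_of_notMem hα, Nat.add_sub_cancel]
    · rw [Finset.card_insert_of_notMem hα, add_mul, one_mul]
      exact (hdeg _ _).trans (hD.ell_pow a _)
    · rw [Finset.card_insert_of_notMem hα, map_mul, ax_coeff, c1, map_mul, h4]
      simp only [ax, aeval_C, Polynomial.algebraMap_eq, map_mul]
      ring
    · have e1 := sqrt_mul_sqrt hw.le (eval z r)
      have e2 := sqrt_mul_sqrt (c := ((wt (α + Finsupp.single o a) : ℕ) : ℝ)) (Nat.cast_nonneg _)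
        (eval z (coeff (α + Finsupp.single o a) (ell X ^ a * (U + monomial α (C s * r)))))
      have e3 : (c : ℂ) * wt α * ((((c * wt α : ℕ) : ℝ)⁻¹ : ℝ) : ℂ) = 1 := by
        have h6 : ((c * wt α : ℕ) : ℂ) ≠ 0 := Nat.cast_ne_zero.2 (Nat.mul_pos hc (wt_pos α)).ne'
        push_cast at h6 ⊢
        exact mul_inv_cancel₀ h6
      rw [Finset.sum_insert hα, Finset.sum_insert hα, c1,
        Finset.sum_congr rfl fun β hβ => by rw [c2 β hβ],
        Finset.sum_congr rfl (s₁ := S) (f := fun β => (wt (β + Finsupp.single o a) : ℂ) * _)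
          fun β hβ => by rw [c3 β hβ], eval_mul, eval_mul, eval_C, eval_C, e1, e2]
      push_cast at e3 ⊢
      linear_combination h5 z + (eval z r * conj (eval z r)) * e3

/-- The polynomial sphere map of degree `a * dim S^j`. -/
theorem block (o : σ) {j a : ℕ} (hja : j ≤ a) :
    ∃ (ι : Type) (_ : Fintype ι) (g : ι → MvPolynomial σ ℂ),
      Fintype.card ι + #(mon σ (2 * j)) + #(mon σ j) ≤ 1 + #(mon σ (j + a)) + #(mon σ j) ^ 2 ∧
      (∀ t, (g t).totalDegree ≤ #(mon σ j) * a) ∧
      (∃ t, g t ≠ 0 ∧ (g t).totalDegree = #(mon σ j) * a) ∧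
      ∀ z : σ → ℂ, ∑ i, ‖z i‖ ^ 2 = 1 → ∑ t, ‖eval z (g t)‖ ^ 2 = 1 := by
  obtain ⟨U, r, h1, h2, h3, ⟨κ, hκ, h4⟩, h5⟩ := chain o j a ((j + a).descFactorial a)
    (Nat.descFactorial_pos.2 (Nat.le_add_left _ _)) (mon σ j) Finset.Subset.rfl
  have hU : U.IsHomogeneous j := fun α hα => by
    have h := mem_mon.1 (h1 (mem_support_iff.2 hα))
    rwa [Finsupp.degree_eq_weight_one] at h
  obtain ⟨n, g, hn, hg, h6⟩ := fillers hU h2 a
  have hm : 1 ≤ #(mon σ j) :=
    Finset.card_pos.2 ⟨Finsupp.single o j, mem_mon.2 (Finsupp.degree_single _ _)⟩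
  have hma : (#(mon σ j) - 1) * a + a = #(mon σ j) * a := by
    rw [← add_one_mul, Nat.sub_add_cancel hm]
  let T := (mon σ j).map (addRightEmbedding (Finsupp.single o a))
  have hT : T ⊆ mon σ (j + a) := by
    intro γ hγ
    obtain ⟨β, hβ, rfl⟩ := Finset.mem_map.1 hγ
    rw [mem_mon, addRightEmbedding_apply, map_add, mem_mon.1 hβ, Finsupp.degree_single]
  have hax : (ax o r).natDegree = #(mon σ j) * a := by
    rw [h4, Polynomial.natDegree_C_mul_X_pow _ _ hκ]
  refine ⟨Option (↥(mon σ (j + a) \ T) ⊕ Fin n), inferInstance, fun t => t.elim r (Sum.elim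
    (fun γ => C ((√((wt γ.1 : ℕ) : ℝ) : ℝ) : ℂ) * coeff γ.1 (ell X ^ a * U)) g), ?_, ?_,
    ⟨none, fun h0 => ?_, le_antisymm h3 (hax ▸ natDegree_ax o r)⟩, fun z hz => ?_⟩
  · have := Finset.card_sdiff_add_card_eq_card hT
    simp only [Fintype.card_option, Fintype.card_sum, Fintype.card_coe, Fintype.card_fin]
    rw [Finset.card_map] at this
    omega
  · rintro (_ | γ | t)
    · exact h3
    · refine (totalDegree_mul _ _).trans ?_
      rw [totalDegree_C, zero_add, ← hma]
      exact h2.ell_pow a _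
    · exact (hg t).trans (by omega)
  · have h0' : r = 0 := h0
    rw [h0', map_zero] at h4
    exact mul_ne_zero (Polynomial.C_ne_zero.2 hκ) (pow_ne_zero _ Polynomial.X_ne_zero) h4.symm
  · have hz' : ∑ i, z i * conj (z i) = 1 := by
      simp only [Complex.mul_conj']
      exact_mod_cast hz
    have e1 := h6 ⟨z, hz'⟩
    have e2 := h5 z
    rw [← Finset.sum_sdiff hT, Finset.sum_map] at e1
    simp only [addRightEmbedding_apply] at e1
    have e3 : eval z r * conj (eval z r) + (∑ γ : ↥(mon σ (j + a) \ T),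
        eval z (C ((√((wt γ.1 : ℕ) : ℝ) : ℝ) : ℂ) * coeff γ.1 (ell X ^ a * U)) *
          conj (eval z (C ((√((wt γ.1 : ℕ) : ℝ) : ℝ) : ℂ) * coeff γ.1 (ell X ^ a * U))) +
        ∑ t, eval z (g t) * conj (eval z (g t))) = 1 := by
      simp only [eval_mul, eval_C, fun γ => sqrt_mul_sqrt (Nat.cast_nonneg (wt γ)),
        Complex.ofReal_natCast]
      rw [Finset.sum_coe_sort (mon σ (j + a) \ T) fun γ => (wt γ : ℂ) *
        (eval z (coeff γ (ell X ^ a * U)) * conj (eval z (coeff γ (ell X ^ a * U))))]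
      linear_combination e2 - e1
    simp only [Complex.mul_conj'] at e3
    simp only [Fintype.sum_option, Fintype.sum_sum_type, Option.elim, Sum.elim_inl, Sum.elim_inr]
    exact_mod_cast e3

end Pool.Agent.MP_eddcad_an.h19
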