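import Mathlib

set_option autoImplicit false

namespace Pool.Agent.MP_eddcad_an.h19

open MvPolynomial Finset

open ComplexConjugate

variable {σ : Type} [Fintype σ] [DecidableEq σ]

/-- The Fock weight of an exponent. -/
def wt (α : σ →₀ ℕ) : ℕ := ∏ i, (α i).factorial

omit [DecidableEq σ] in
theorem wt_pos (α : σ →₀ ℕ) : 0 < wt α := Finset.prod_pos fun _ _ => Nat.factorial_pos _

theorem wt_add (α : σ →₀ ℕ) (i : σ) : wt (α + Finsupp.single i 1) = wt α * (α i + 1) := by
  unfold wt
  rw [← Finset.mul_prod_erase _ _ (Finset.mem_univ i),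
    ← Finset.mul_prod_erase _ (fun i => (α i).factorial) (Finset.mem_univ i),
    Finset.prod_congr rfl (g := fun i => (α i).factorial) fun l hl => by
      simp [Finsupp.single_eq_of_ne (Finset.ne_of_mem_erase hl)]]
  simp [Nat.factorial_succ]
  ring

/-- Conjugate of a coefficient, as a semilinear functional. -/
noncomputable def cc (α : σ →₀ ℕ) : MvPolynomial σ ℂ →ₗ⋆[ℂ] ℂ where
  toFun q := conj (coeff α q)
  map_add' p q := by simp
  map_smul' c p := by simp

/-- The Fock form on polynomials. -/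
noncomputable def fk : MvPolynomial σ ℂ →ₗ[ℂ] MvPolynomial σ ℂ →ₗ⋆[ℂ] ℂ :=
  (basisMonomials σ ℂ).constr ℂ fun α => (wt α : ℂ) • cc α

omit [DecidableEq σ] in
theorem fk_monomial (α : σ →₀ ℕ) (c : ℂ) (q : MvPolynomial σ ℂ) :
    fk (monomial α c) q = wt α * (c * conj (coeff α q)) := by
  have e : (monomial α c : MvPolynomial σ ℂ) = c • basisMonomials σ ℂ α := by
    simp [smul_monomial]
  rw [e, map_smul, fk, Module.Basis.constr_basis]
  simp [cc]
  ring

omit [DecidableEq σ] in
theorem fk_eq (s : Finset (σ →₀ ℕ)) (p q : MvPolynomial σ ℂ) (hs : p.support ⊆ s) :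
    fk p q = ∑ α ∈ s, wt α * (coeff α p * conj (coeff α q)) := by
  conv_lhs => rw [p.as_sum]
  rw [map_sum, LinearMap.sum_apply]
  simp only [fk_monomial]
  refine Finset.sum_subset hs fun α _ h => ?_
  rw [notMem_support_iff.1 h]
  simp

omit [DecidableEq σ] in
theorem fk_conj (p q : MvPolynomial σ ℂ) : conj (fk q p) = fk p q := by
  classical
  rw [fk_eq (p.support ∪ q.support) p q Finset.subset_union_left,
    fk_eq (p.support ∪ q.support) q p Finset.subset_union_right, map_sum]
  refine Finset.sum_congr rfl fun α _ => ?_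
  simp [mul_comm]

theorem fk_X_mul (i : σ) (p q : MvPolynomial σ ℂ) : fk (X i * p) q = fk p (pderiv i q) := by
  induction p using MvPolynomial.induction_on' with
  | add p p' hp hp' => simp only [mul_add, map_add, LinearMap.add_apply, hp, hp']
  | monomial α c =>
    have e : (X i * monomial α c : MvPolynomial σ ℂ) = monomial (α + Finsupp.single i 1) c := by
      rw [X, monomial_mul, one_mul, add_comm]
    rw [e, fk_monomial, fk_monomial, coeff_pderiv, wt_add]
    simp
    ring

/-- The linear form with coefficients `a`. -/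
noncomputable def ell {A : Type} [CommRing A] (a : σ → A) : MvPolynomial σ A := ∑ i, a i • X i

/-- The derivative in the conjugate direction. -/
noncomputable def bb (z : σ → ℂ) : Module.End ℂ (MvPolynomial σ ℂ) :=
  ∑ i, conj (z i) • (pderiv i).toLinearMap

omit [DecidableEq σ] in
theorem bb_apply (z : σ → ℂ) (p : MvPolynomial σ ℂ) :
    bb z p = ∑ i, conj (z i) • pderiv i p := by
  simp [bb, LinearMap.sum_apply]

theorem fk_ell (z : σ → ℂ) (p q : MvPolynomial σ ℂ) : fk (ell z * p) q = fk p (bb z q) := by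
  rw [ell, bb_apply, Finset.sum_mul, map_sum, LinearMap.sum_apply, map_sum]
  refine Finset.sum_congr rfl fun i _ => ?_
  rw [smul_mul_assoc, map_smul, LinearMap.smul_apply, fk_X_mul, map_smulₛₗ]
  simp

theorem fk_ell' (z : σ → ℂ) (p q : MvPolynomial σ ℂ) : fk p (ell z * q) = fk (bb z p) q := by
  rw [← fk_conj, fk_ell, fk_conj]

theorem pderiv_ell {A : Type} [CommRing A] (a : σ → A) (i : σ) : pderiv i (ell a) = C (a i) := by
  rw [ell, map_sum, Finset.sum_eq_single i]
  · simp [smul_eq_C_mul]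
  · intro l _ hl
    simp [pderiv_X_of_ne hl]
  · simp

theorem bb_ell {z : σ → ℂ} (hz : ∑ i, z i * conj (z i) = 1) (p : MvPolynomial σ ℂ) :
    bb z (ell z * p) = ell z * bb z p + p := by
  simp only [bb_apply, pderiv_mul, pderiv_ell, smul_add, Finset.sum_add_distrib, Finset.mul_sum,
    mul_smul_comm, C_mul', smul_smul]
  rw [← Finset.sum_smul, add_comm, Finset.sum_congr rfl fun i _ => mul_comm (conj (z i)) (z i), hz,
    one_smul]

theorem bb_pow_ell {z : σ → ℂ} (hz : ∑ i, z i * conj (z i) = 1) (p : MvPolynomial σ ℂ) (k : ℕ) :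
    (bb z ^ (k + 1)) (ell z * p) = ell z * (bb z ^ (k + 1)) p + ((k : ℂ) + 1) • (bb z ^ k) p := by
  induction k with
  | zero => simp [bb_ell hz]
  | succ k ih =>
    rw [pow_succ' _ (k + 1), Module.End.mul_apply, ih, map_add, bb_ell hz, map_smul,
      Module.End.mul_apply, pow_succ' _ k, Module.End.mul_apply]
    push_cast
    module

/-- Square norm of the `k`-th derivative in the conjugate direction. -/
noncomputable def nn (z : σ → ℂ) (k : ℕ) (p : MvPolynomial σ ℂ) : ℂ :=
  fk ((bb z ^ k) p) ((bb z ^ k) p)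

theorem nn_zero_ell {z : σ → ℂ} (hz : ∑ i, z i * conj (z i) = 1) (p : MvPolynomial σ ℂ) :
    fk (ell z * p) (ell z * p) = fk (bb z p) (bb z p) + fk p p := by
  rw [fk_ell, bb_ell hz, map_add, fk_ell']

theorem nn_ell {z : σ → ℂ} (hz : ∑ i, z i * conj (z i) = 1) (p : MvPolynomial σ ℂ) (k : ℕ) :
    nn z (k + 1) (ell z * p) =
      nn z (k + 2) p + (2 * k + 3) * nn z (k + 1) p + (k + 1) ^ 2 * nn z k p := by
  have e1 : (bb z ^ (k + 1)) p = bb z ((bb z ^ k) p) := by rw [pow_succ', Module.End.mul_apply]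
  have e2 : (bb z ^ (k + 2)) p = bb z (bb z ((bb z ^ k) p)) := by
    rw [pow_succ', Module.End.mul_apply, e1]
  simp only [nn]
  rw [bb_pow_ell hz, e1, e2]
  simp only [map_add, LinearMap.add_apply, map_smul, LinearMap.smul_apply, map_smulₛₗ,
    nn_zero_ell hz, smul_eq_mul, map_natCast, map_one]
  rw [fk_ell, fk_ell']
  ring

theorem euler {m : ℕ} {p : MvPolynomial σ ℂ} (hp : p.IsHomogeneous m) :
    ∑ i, fk (pderiv i p) (pderiv i p) = m * fk p p := by
  simp only [← fk_X_mul]
  rw [← LinearMap.sum_apply, ← map_sum, hp.sum_X_mul_pderiv, map_nsmul, LinearMap.smul_apply,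
    nsmul_eq_mul]

omit [DecidableEq σ] in
theorem lagrange {ι : Type} [Fintype ι] (u : ι → MvPolynomial σ ℂ) (w : ι → ℂ)
    (hw : ∑ I, w I * conj (w I) = 1) :
    2 * (∑ I, fk (u I) (u I) - fk (∑ I, conj (w I) • u I) (∑ I, conj (w I) • u I)) =
      ∑ I, ∑ J, fk (w J • u I - w I • u J) (w J • u I - w I • u J) := by
  have e1 : fk (∑ I, conj (w I) • u I) (∑ I, conj (w I) • u I) =
      ∑ I, ∑ J, conj (w I) * w J * fk (u I) (u J) := by
    simp only [map_sum, LinearMap.sum_apply, map_smul, LinearMap.smul_apply, map_smulₛₗ,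
      smul_eq_mul, Complex.conj_conj]
    rw [Finset.sum_comm]
    refine Finset.sum_congr rfl fun I _ => ?_
    rw [Finset.mul_sum]
    exact Finset.sum_congr rfl fun J _ => by ring
  have e2 : ∀ I J, fk (w J • u I - w I • u J) (w J • u I - w I • u J) =
      w J * conj (w J) * fk (u I) (u I) + w I * conj (w I) * fk (u J) (u J) -
        conj (w I) * w J * fk (u I) (u J) - conj (w J) * w I * fk (u J) (u I) := by
    intro I J
    simp only [map_sub, LinearMap.sub_apply, map_smul, LinearMap.smul_apply, map_smulₛₗ,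
      smul_eq_mul]
    ring
  simp only [e1, e2, Finset.sum_sub_distrib, Finset.sum_add_distrib]
  rw [Finset.sum_comm (f := fun I J => conj (w J) * w I * fk (u J) (u I)),
    Finset.sum_comm (f := fun I J => w I * conj (w I) * fk (u J) (u J))]
  simp only [← Finset.sum_mul, hw, one_mul]
  ring

/-- Iterated partial derivative along a word. -/
noncomputable def dW {A : Type} [CommRing A] :
    (k : ℕ) → (Fin k → σ) → MvPolynomial σ A → MvPolynomial σ A
  | 0, _, p => p
  | k + 1, I, p => pderiv (I 0) (dW k (Fin.tail I) p)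

omit [DecidableEq σ] in
theorem sum_word {M : Type} [AddCommMonoid M] {k : ℕ} (f : (Fin (k + 1) → σ) → M) :
    ∑ I, f I = ∑ i, ∑ I : Fin k → σ, f (Fin.cons i I) := by
  rw [← (Fin.consEquiv fun _ => σ).sum_comp, Fintype.sum_prod_type]
  rfl

omit [DecidableEq σ] in
theorem sum_dW (z : σ → ℂ) (p : MvPolynomial σ ℂ) (k : ℕ) :
    ∑ I : Fin k → σ, conj (∏ t, z (I t)) • dW k I p = (bb z ^ k) p := by
  induction k with
  | zero => simp [dW]
  | succ k ih =>
    rw [sum_word, pow_succ', Module.End.mul_apply, ← ih, bb_apply]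
    refine Finset.sum_congr rfl fun i _ => ?_
    rw [map_sum, Finset.smul_sum]
    refine Finset.sum_congr rfl fun I _ => ?_
    simp [dW, Fin.prod_univ_succ, smul_smul]

omit [Fintype σ] [DecidableEq σ] in
theorem dW_hom {A : Type} [CommRing A] {m : ℕ} {p : MvPolynomial σ A} (hp : p.IsHomogeneous m)
    (k : ℕ) (I : Fin k → σ) : (dW k I p).IsHomogeneous (m - k) := by
  induction k with
  | zero => simpa [dW] using hp
  | succ k ih => exact (ih (Fin.tail I)).pderiv

theorem sum_fk_dW {m : ℕ} {p : MvPolynomial σ ℂ} (hp : p.IsHomogeneous m) (k : ℕ) :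
    ∑ I : Fin k → σ, fk (dW k I p) (dW k I p) = m.descFactorial k * fk p p := by
  induction k with
  | zero => simp [dW]
  | succ k ih =>
    rw [sum_word, Finset.sum_comm]
    simp only [dW, Fin.cons_zero, Fin.tail_cons, fun I => euler (dW_hom hp k I)]
    rw [← Finset.mul_sum, ih, Nat.descFactorial_succ, Nat.cast_mul, mul_assoc]

omit [Fintype σ] [DecidableEq σ] in
theorem dW_map {A B : Type} [CommRing A] [CommRing B] (φ : A →+* B) (p : MvPolynomial σ A)
    (k : ℕ) (I : Fin k → σ) : dW k I (map φ p) = map φ (dW k I p) := by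
  induction k with
  | zero => rfl
  | succ k ih => simp only [dW, ih, pderiv_map]

omit [Fintype σ] [DecidableEq σ] in
theorem coeff_dW {A : Type} [CommRing A] (k : ℕ) (I : Fin k → σ) (μ : σ →₀ ℕ) :
    ∃ c : ℕ, ∀ p : MvPolynomial σ A,
      coeff μ (dW k I p) = c • coeff (μ + ∑ t, Finsupp.single (I t) 1) p := by
  induction k generalizing μ with
  | zero => exact ⟨1, fun p => by simp [dW]⟩
  | succ k ih =>
    obtain ⟨c, hc⟩ := ih (Fin.tail I) (μ + Finsupp.single (I 0) 1)
    refine ⟨c * (μ (I 0) + 1), fun p => ?_⟩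
    rw [dW, coeff_pderiv, hc, Fin.sum_univ_succ, add_assoc]
    simp only [Fin.tail, nsmul_eq_mul]
    push_cast
    ring

theorem dW_ell {A : Type} [CommRing A] (a : σ → A) (j k : ℕ) (I : Fin k → σ) :
    dW k I (ell a ^ j) = C (j.descFactorial k * ∏ t, a (I t)) * ell a ^ (j - k) := by
  induction k with
  | zero => simp [dW]
  | succ k ih =>
    rw [dW, ih, pderiv_C_mul, pderiv_pow, pderiv_ell, Fin.prod_univ_succ, Nat.descFactorial_succ,
      Nat.sub_sub]
    simp only [Fin.tail, map_mul, Nat.cast_mul, map_natCast]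
    ring

omit [DecidableEq σ] in
theorem bb_pow_eq_zero (z : σ → ℂ) {j k : ℕ} (h : j < k) {p : MvPolynomial σ ℂ}
    (hp : p.IsHomogeneous j) : (bb z ^ k) p = 0 := by
  obtain ⟨k, rfl⟩ : ∃ k', k = k' + 1 := ⟨k - 1, by omega⟩
  rw [← sum_dW]
  refine Finset.sum_eq_zero fun I _ => ?_
  have h0 := dW_hom hp k (Fin.tail I)
  rw [show j - k = 0 by omega, ← totalDegree_zero_iff_isHomogeneous,
    totalDegree_eq_zero_iff_eq_C] at h0
  rw [dW, h0, pderiv_C, smul_zero]

end Pool.Agent.MP_eddcad_an.h19
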