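import Pool.Agent.MP_eddcad_an.h19.Chain
import Pool.Agent.MP_eddcad_an.h49.Sph

set_option autoImplicit false

namespace Pool.Agent.MP_eddcad_an.h19

open Finset h49

theorem card_mon (n k : ℕ) : #(mon (Fin n) k) = (n + k - 1).choose k := by
  rw [mon, Finset.card_finsuppAntidiag_nat_eq_choose, Finset.card_univ, Fintype.card_fin]

theorem sph_block {n j a : ℕ} (hn : 0 < n) (hja : j ≤ a) : ∃ e : ℕ,
    e + ((n + 2 * j - 1).choose (2 * j) + (n + j - 1).choose j) ≤
      (n + (j + a) - 1).choose (j + a) + (n + j - 1).choose j ^ 2 ∧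
    Sph n (e + 1) (a * (n + j - 1).choose j) := by
  obtain ⟨ι, _, g, h1, h2, h3, h4⟩ := block (⟨0, hn⟩ : Fin n) hja
  simp only [card_mon] at h1 h2 h3
  have : Nonempty ι := ⟨h3.choose⟩
  have h0 : 0 < Fintype.card ι := Fintype.card_pos
  rw [mul_comm _ a] at h2 h3
  exact ⟨Fintype.card ι - 1, by omega, ι, inferInstance, g, by omega, h2, h3, h4⟩

theorem sph_blocks {n M e : ℕ} (hn : 0 < n) (h : Sph n (M + 1) e) (t : ℕ) (j a : Fin t → ℕ)
    (hja : ∀ i, j i ≤ a i) : ∃ c : ℕ,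
    c + ∑ i, ((n + 2 * j i - 1).choose (2 * j i) + (n + j i - 1).choose (j i)) ≤
      ∑ i, ((n + (j i + a i) - 1).choose (j i + a i) + (n + j i - 1).choose (j i) ^ 2) ∧
    Sph n (M + c + 1) (e + ∑ i, a i * (n + j i - 1).choose (j i)) := by
  induction t with
  | zero => exact ⟨0, by simp, by simpa using h⟩
  | succ t ih =>
    obtain ⟨c, h1, h2⟩ := ih (fun i => j i.succ) (fun i => a i.succ) fun i => hja _
    obtain ⟨c', h3, h4⟩ := sph_block hn (hja 0)
    refine ⟨c + c', ?_, ?_⟩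
    · simp only [Fin.sum_univ_succ]
      omega
    · have h5 := h2.tensor h4
      rw [Fin.sum_univ_succ, add_comm (a 0 * _), ← add_assoc, ← add_assoc]
      exact h5

theorem sph_ico (k : ℕ) : Sph 2 (11 * k + 1) (22 * k) := by
  rcases k with _ | k
  · exact sph_one 2
  · exact (h17.graded_family k).sph

theorem polyDeg_pow {N d : ℕ} (hd : 1 ≤ d) (h : 27 * d ^ 2 ≤ 4 * N ^ 3) : PolyDeg 2 N d := by
  rcases arith_range h hd with h | ⟨j, a, r, hja, rfl, hN⟩
  · exact polyDeg_of_range two_pos hd (Or.inr ⟨rfl, h⟩)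
  · obtain ⟨e, h1, h2⟩ := sph_block two_pos hja
    have e1 : ∀ k : ℕ, (2 + k - 1).choose k = k + 1 := fun k => by
      rw [show 2 + k - 1 = k + 1 by omega, Nat.choose_succ_self_right]
    simp only [e1] at h1 h2
    rw [mul_comm a] at h2
    exact ((h2.add_deg r).mono (by nlinarith)).polyDeg two_pos hd

end Pool.Agent.MP_eddcad_an.h19
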