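import Mathlib
import Pool.Agent.MP_eddcad_an.h52.Line

/-! The chain of relations among the coefficients on the generic line. -/

set_option autoImplicit false
set_option linter.unusedSectionVars false

noncomputable section

namespace Pool.Agent.MP_eddcad_an.H19

open Finset

section Field
open Polynomial

variable {K ι : Type} [Field K]

/-- sequences supported below `d + a` that kill the first `a` shifts -/
def PH (G : ι → K[X]) (d a : ℕ) : Submodule K K[X] where
  carrier := {φ | (∀ k, d + a ≤ k → φ.coeff k = 0) ∧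
    ∀ l < a, ∀ j, ∑ k ∈ range (d + 1), φ.coeff (k + l) * (G j).coeff k = 0}
  add_mem' := fun {x y} hx hy => ⟨fun k hk => by rw [coeff_add, hx.1 k hk, hy.1 k hk, add_zero],
    fun l hl j => by simp only [coeff_add, add_mul, sum_add_distrib, hx.2 l hl j, hy.2 l hl j,
      add_zero]⟩
  zero_mem' := ⟨fun k _ => by simp, fun l _ j => by simp⟩
  smul_mem' := fun c x hx => ⟨fun k hk => by rw [coeff_smul, hx.1 k hk, smul_zero],
    fun l hl j => by simp only [coeff_smul, smul_eq_mul, mul_assoc, ← mul_sum, hx.2 l hl j,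
      mul_zero]⟩

/-- the shifted pairing -/
def sg (G : ι → K[X]) (d : ℕ) (j : ι) : K[X] →ₗ[K] K where
  toFun φ := ∑ k ∈ range d, φ.coeff k * (G j).coeff (k + 1)
  map_add' x y := by simp only [coeff_add, add_mul, sum_add_distrib]
  map_smul' c x := by simp only [coeff_smul, smul_eq_mul, mul_assoc, ← mul_sum, RingHom.id_apply]

/-- the cross map -/
def cr (G : ι → K[X]) (d : ℕ) (j0 : ι) : K[X] →ₗ[K] ι → K :=
  LinearMap.pi fun j => (G j0).coeff 0 • sg G d j - (G j).coeff 0 • sg G d j0

/-- the lift of a sequence -/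
def lf (G : ι → K[X]) (d : ℕ) (j0 : ι) : K[X] →ₗ[K] K[X] :=
  LinearMap.mulLeft K X - (monomial 0).comp (((G j0).coeff 0)⁻¹ • sg G d j0)

variable {G : ι → K[X]} {d a : ℕ} {j0 : ι}

theorem lf_succ (φ : K[X]) (k : ℕ) : (lf G d j0 φ).coeff (k + 1) = φ.coeff k := by
  simp [lf]

theorem lf_zero (φ : K[X]) : (lf G d j0 φ).coeff 0 = -(((G j0).coeff 0)⁻¹ * sg G d j0 φ) := by
  simp [lf]

theorem PH_le : PH G d a ≤ degreeLT K (d + a) := fun φ h => by
  rw [mem_degreeLT, degree_lt_iff_coeff_zero]
  exact h.1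

instance : Module.Finite K (PH G d a) := Submodule.finiteDimensional_of_le PH_le

theorem PH_zero : Module.finrank K (PH G d 0) = d := by
  have : PH G d 0 = degreeLT K d := le_antisymm PH_le fun φ h => by
    rw [mem_degreeLT, degree_lt_iff_coeff_zero] at h
    exact ⟨h, fun l hl => absurd hl (Nat.not_lt_zero l)⟩
  rw [this, (degreeLTEquiv K d).finrank_eq, Module.finrank_fin_fun]

theorem lf_mem (h0 : (G j0).coeff 0 ≠ 0) {φ : K[X]} (h : φ ∈ PH G d a) (hc : cr G d j0 φ = 0) :
    lf G d j0 φ ∈ PH G d (a + 1) := by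
  refine ⟨fun k hk => ?_, fun l hl j => ?_⟩
  · obtain ⟨k, rfl⟩ : ∃ m, k = m + 1 := ⟨k - 1, by omega⟩
    rw [lf_succ]
    exact h.1 k (by omega)
  · cases l with
    | succ l =>
      simp only [← add_assoc, lf_succ]
      exact h.2 l (by omega) j
    | zero =>
      have e := congrFun hc j
      simp only [cr, LinearMap.pi_apply, LinearMap.sub_apply, LinearMap.smul_apply, smul_eq_mul,
        Pi.zero_apply] at e
      rw [sum_range_succ']
      simp only [add_zero, lf_succ, lf_zero]
      change sg G d j φ + _ = 0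
      field_simp
      linear_combination e

theorem step (h0 : (G j0).coeff 0 ≠ 0) : Module.finrank K (PH G d a) ≤
    Module.finrank K ((PH G d a).map (cr G d j0)) + Module.finrank K (PH G d (a + 1)) := by
  have e := ((cr G d j0).domRestrict (PH G d a)).finrank_range_add_finrank_ker
  rw [LinearMap.range_domRestrict] at e
  rw [← e]
  refine Nat.add_le_add_left (LinearMap.finrank_le_finrank_of_injective
    (f := ((lf G d j0).comp ((PH G d a).subtype.comp (Submodule.subtype _))).codRestrict _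
      fun x => lf_mem h0 x.1.2 x.2) fun x y hxy => ?_) _
  refine Subtype.ext (Subtype.ext (ext fun k => ?_))
  have := congrArg (fun p : PH G d (a + 1) => p.1.coeff (k + 1)) hxy
  simpa [lf_succ] using this

theorem dead (hd : ∀ j, (G j).natDegree ≤ d) (ht : ∃ j, (G j).coeff d ≠ 0)
    (hc : ∀ g, (∀ j, g ∣ G j) → IsUnit g) (h0 : (G j0).coeff 0 ≠ 0)
    (hz : ∀ φ ∈ PH G d (a + 1), cr G d j0 φ = 0) : PH G d (a + 1) = ⊥ := by
  let W : Submodule K K[X] :=
    { carrier := {w | (∀ k, d + a + 1 ≤ k → w.coeff k = 0) ∧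
        ∀ φ ∈ PH G d (a + 1), ∑ k ∈ range (d + a + 1), φ.coeff k * w.coeff k = 0}
      add_mem' := fun {x y} hx hy => ⟨fun k hk => by rw [coeff_add, hx.1 k hk, hy.1 k hk, add_zero],
        fun φ h => by simp only [coeff_add, mul_add, sum_add_distrib, hx.2 φ h, hy.2 φ h, add_zero]⟩
      zero_mem' := ⟨fun k _ => by simp, fun φ _ => by simp⟩
      smul_mem' := fun c x hx => ⟨fun k hk => by rw [coeff_smul, hx.1 k hk, smul_zero],
        fun φ h => by simp only [coeff_smul, smul_eq_mul, mul_left_comm _ c, ← mul_sum, hx.2 φ h,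
          mul_zero]⟩ }
  have hz' : ∀ j k, d < k → (G j).coeff k = 0 := fun j k hk =>
    coeff_eq_zero_of_natDegree_lt ((hd j).trans_lt hk)
  have hm : ∀ l ≤ a, ∀ j, G j * X ^ l ∈ W := fun l hl j => by
    refine ⟨fun k hk => ?_, fun φ h => ?_⟩
    · rw [coeff_mul_X_pow', if_pos (by omega)]
      exact hz' j _ (by omega)
    · rw [← h.2 l (by omega) j, show d + a + 1 = l + ((d + 1) + (a - l)) by omega, sum_range_add,
        sum_range_add, sum_eq_zero, sum_eq_zero (s := range (a - l)), zero_add, add_zero]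
      · exact sum_congr rfl fun k _ => by rw [add_comm l k, coeff_mul_X_pow]
      · intro k _
        rw [add_comm l, coeff_mul_X_pow, hz' j _ (by omega), mul_zero]
      · intro k hk
        rw [coeff_mul_X_pow', if_neg (by simpa using hk), mul_zero]
  obtain ⟨j1, h1⟩ := ht
  have all := H52.all_of_divX W (fun w hw w0 => ⟨fun k hk => ?_, fun φ h => ?_⟩)
    (fun g hg => hc g fun j => by simpa using hg _ (hm 0 (Nat.zero_le a) j)) (d + a)
    (hm a le_rfl j1) (natDegree_mul_le.trans (by simpa using hd j1)) (by rwa [coeff_mul_X_pow])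
  · rw [eq_bot_iff]
    intro φ h
    refine (Submodule.mem_bot K).2 (ext fun k => ?_)
    by_cases hk : k ≤ d + a
    · have := (all k hk).2 φ h
      simpa [coeff_X_pow, Nat.lt_succ_iff, hk] using this
    · exact h.1 k (by omega)
  · rw [coeff_divX]
    exact hw.1 _ (by omega)
  · have m1 := lf_mem h0 h (hz φ h)
    obtain ⟨ψ, hψ⟩ : ∃ ψ, ψ = lf G d j0 φ := ⟨_, rfl⟩
    have e : ∀ k < d + a + 1, (ψ.erase (d + a + 1)).coeff k = ψ.coeff k := fun k hk =>
      erase_ne _ hk.ne
    have m2 : ψ.erase (d + a + 1) ∈ PH G d (a + 1) := by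
      refine ⟨fun k hk => ?_, fun l hl j => ?_⟩
      · rcases eq_or_ne k (d + a + 1) with rfl | hn
        · exact erase_same _ _
        · rw [erase_ne _ hn, hψ]
          exact m1.1 k (by omega)
      · rw [← m1.2 l (by omega) j, ← hψ]
        exact sum_congr rfl fun k hk => by rw [e _ (by have := mem_range.1 hk; omega)]
    have := hw.2 _ m2
    rw [sum_congr rfl fun k hk => by rw [e k (mem_range.1 hk)], sum_range_succ', w0, mul_zero,
      add_zero] at this
    rw [sum_range_succ, coeff_divX, hw.1 _ le_rfl, mul_zero, add_zero, ← this]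
    exact sum_congr rfl fun k _ => by rw [hψ, lf_succ, coeff_divX]

theorem total (hd : ∀ j, (G j).natDegree ≤ d) (ht : ∃ j, (G j).coeff d ≠ 0)
    (hc : ∀ g, (∀ j, g ∣ G j) → IsUnit g) (h0 : (G j0).coeff 0 ≠ 0) :
    d ≤ ∑ a ∈ range (d + 1), Module.finrank K ((PH G d a).map (cr G d j0)) := by
  have tel : ∀ a, d ≤ ∑ b ∈ range a, Module.finrank K ((PH G d b).map (cr G d j0)) +
      Module.finrank K (PH G d a) := fun a => by
    induction a with
    | zero => simp [PH_zero]
    | succ a ih =>
      have := step (G := G) (d := d) (a := a) h0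
      rw [sum_range_succ]
      omega
  by_cases h : ∀ a < d, 1 ≤ Module.finrank K ((PH G d (a + 1)).map (cr G d j0))
  · rw [sum_range_succ']
    refine le_trans ?_ (Nat.le_add_right _ _)
    simpa using sum_le_sum fun a (ha : a ∈ range d) => h a (mem_range.1 ha)
  · push Not at h
    obtain ⟨a, ha, h⟩ := h
    have z : (PH G d (a + 1)).map (cr G d j0) = ⊥ := Submodule.finrank_eq_zero.1 (by omega)
    have := tel (a + 1)
    rw [dead hd ht hc h0 fun φ hφ => (Submodule.mem_bot K).1 (z ▸ Submodule.mem_map_of_mem hφ),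
      finrank_bot, add_zero] at this
    exact this.trans (sum_le_sum_of_subset (range_subset_range.2 (by omega)))

end Field

open MvPolynomial H52

variable {n : ℕ}

theorem indep_eval {ι κ : Type} [Fintype ι] [Fintype κ] (v : κ → ι → AA n)
    (h : LinearIndependent (FractionRing (AA n))
      fun x j => algebraMap (AA n) (FractionRing (AA n)) (v x j)) :
    ∃ δ : AA n, δ ≠ 0 ∧ ∀ y, eval y δ ≠ 0 → LinearIndependent ℂ fun x j => eval y (v x j) := by
  classical
  let K := FractionRing (AA n)
  have inj : Function.Injective (algebraMap (AA n) K) := IsFractionRing.injective _ _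
  obtain ⟨g, hg⟩ := (Fintype.linearCombination K
    fun x j => algebraMap (AA n) K (v x j)).exists_leftInverse_of_injective
    (LinearMap.ker_eq_bot.2 (linearIndependent_iff_injective_fintypeLinearCombination.1 h))
  obtain ⟨δ, hδ⟩ := IsLocalization.exist_integer_multiples_of_finite (nonZeroDivisors (AA n))
    fun p : κ × ι => g (Pi.single p.2 1) p.1
  choose c hc using hδ
  refine ⟨δ, nonZeroDivisors.ne_zero δ.2, fun y hy => Fintype.linearIndependent_iff.2
    fun b hb k => ?_⟩
  have e : ∀ l, ∑ j, c (k, j) * v l j = if l = k then δ.1 else 0 := fun l => inj (by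
    have a1 := congrFun (LinearMap.congr_fun hg (Pi.single l 1)) k
    rw [LinearMap.comp_apply, Fintype.linearCombination_apply_single, one_smul,
      pi_eq_sum_univ' (fun j => algebraMap (AA n) K (v l j)), map_sum] at a1
    simp only [map_smul, Finset.sum_apply, Pi.smul_apply, smul_eq_mul, LinearMap.id_apply,
      Pi.single_apply] at a1
    simp only [map_sum, map_mul, hc, Algebra.smul_def, mul_assoc, ← mul_sum]
    rw [sum_congr rfl fun j _ => mul_comm _ _, a1]
    by_cases hl : l = k
    · simp [hl]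
    · simp [hl, Ne.symm hl])
  have e2 : ∑ j, eval y (c (k, j)) * ∑ l, b l * eval y (v l j) = b k * eval y δ.1 := by
    simp only [mul_sum]
    rw [sum_comm]
    simp only [mul_left_comm _ (b _), ← mul_sum, ← map_mul, ← map_sum, e]
    simp [apply_ite]
  rw [sum_eq_zero fun j _ => by
    rw [show ∑ l, b l * eval y (v l j) = 0 by simpa using congrFun hb j, mul_zero]] at e2
  exact (mul_eq_zero.1 e2.symm).resolve_right hy

theorem cop_frac {ι : Type} {F : ι → MvPolynomial (Fin n) ℂ}
    (hc : ∀ g, (∀ j, g ∣ F j) → IsUnit g) {j0 : ι} (h0 : (LL (F j0)).coeff 0 ≠ 0)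
    (g : Polynomial (FractionRing (AA n)))
    (hg : ∀ j, g ∣ (LL (F j)).map (algebraMap (AA n) (FractionRing (AA n)))) : IsUnit g := by
  let K := FractionRing (AA n)
  have inj : Function.Injective (algebraMap (AA n) K) := IsFractionRing.injective _ _
  have g0 : g ≠ 0 := fun e => h0 (by
    have := congrArg (Polynomial.coeff · 0) (zero_dvd_iff.1 (e ▸ hg j0))
    simpa [Polynomial.coeff_map] using this)
  obtain ⟨c, c0, hc'⟩ := IsLocalization.integerNormalization_spec (nonZeroDivisors (AA n)) g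
  have := Classical.arbitrary (NormalizedGCDMonoid (AA n))
  obtain ⟨p, hp⟩ : ∃ p, p = IsLocalization.integerNormalization (nonZeroDivisors (AA n)) g :=
    ⟨_, rfl⟩
  rw [← hp, Algebra.smul_def, Polynomial.algebraMap_apply] at hc'
  have cu : IsUnit (Polynomial.C (algebraMap (AA n) K c)) :=
    Polynomial.isUnit_C.2 (IsUnit.mk0 _ ((map_ne_zero_iff _ inj).2 (nonZeroDivisors.ne_zero c0)))
  have b1 := cop_LL hc p.primPart_ne_zero fun j =>
    p.isPrimitive_primPart.dvd_of_fraction_map_dvd_fraction_map (K := K)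
      ((Polynomial.map_dvd _ p.primPart_dvd).trans (hc' ▸ cu.mul_left_dvd.2 (hg j)))
  rw [Polynomial.natDegree_primPart, ← Polynomial.natDegree_map_eq_of_injective inj, hc',
    Polynomial.natDegree_mul cu.ne_zero g0, Polynomial.natDegree_C, zero_add] at b1
  rw [Polynomial.eq_C_of_natDegree_eq_zero b1] at g0 ⊢
  exact Polynomial.isUnit_C.2 (IsUnit.mk0 _ (Polynomial.C_ne_zero.1 g0))

theorem rel_chain {ι : Type} [Fintype ι] (F : ι → MvPolynomial (Fin n) ℂ) {d : ℕ}
    (hd : ∀ j, (F j).totalDegree ≤ d) (ht : ∃ j, (LL (F j)).coeff d ≠ 0)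
    (hc : ∀ g, (∀ j, g ∣ F j) → IsUnit g) (j0 : ι) (h0 : (LL (F j0)).coeff 0 ≠ 0) :
    ∃ (q : ℕ → ℕ) (φ : (a : ℕ) → Fin (q a) → ℕ → AA n) (δ : AA n), δ ≠ 0 ∧
      d ≤ ∑ a ∈ range (d + 1), q a ∧
      (∀ a x, ∀ l < a, ∀ j, ∑ k ∈ range (d + 1), φ a x (k + l) * (LL (F j)).coeff k = 0) ∧
      ∀ y, eval y δ ≠ 0 → ∀ a ≤ d, LinearIndependent ℂ fun x j => eval y
        ((∑ k ∈ range d, φ a x k * (LL (F j)).coeff (k + 1)) * (LL (F j0)).coeff 0 -
          (∑ k ∈ range d, φ a x k * (LL (F j0)).coeff (k + 1)) * (LL (F j)).coeff 0) := by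
  let K := FractionRing (AA n)
  have inj : Function.Injective (algebraMap (AA n) K) := IsFractionRing.injective _ _
  obtain ⟨G, hG⟩ : ∃ G : ι → Polynomial K, G = fun j => (LL (F j)).map (algebraMap (AA n) K) :=
    ⟨_, rfl⟩
  have gc : ∀ j k, (G j).coeff k = algebraMap (AA n) K ((LL (F j)).coeff k) := fun j k => by
    rw [hG, Polynomial.coeff_map]
  obtain ⟨j1, h1⟩ := ht
  have tot := total (G := G) (d := d) (j0 := j0)
    (fun j => hG ▸ Polynomial.natDegree_map_le.trans ((natDegree_LL _).trans (hd j)))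
    ⟨j1, by rwa [gc, map_ne_zero_iff _ inj]⟩ (fun g hg => cop_frac hc h0 g (by simpa [hG] using hg))
    (by rwa [gc, map_ne_zero_iff _ inj])
  have one : ∀ a, ∃ (φ : Fin (Module.finrank K ((PH G d a).map (cr G d j0))) → ℕ → AA n)
      (δ : AA n), δ ≠ 0 ∧
      (∀ x, ∀ l < a, ∀ j, ∑ k ∈ range (d + 1), φ x (k + l) * (LL (F j)).coeff k = 0) ∧
      ∀ y, eval y δ ≠ 0 → LinearIndependent ℂ fun x j => eval y
        ((∑ k ∈ range d, φ x k * (LL (F j)).coeff (k + 1)) * (LL (F j0)).coeff 0 -
          (∑ k ∈ range d, φ x k * (LL (F j0)).coeff (k + 1)) * (LL (F j)).coeff 0) := fun a => by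
    let b := Module.finBasis K ((PH G d a).map (cr G d j0))
    choose p hp hp' using fun x => Submodule.mem_map.1 (b x).2
    choose c c0 hc' using fun x =>
      IsLocalization.integerNormalization_spec (nonZeroDivisors (AA n)) (p x)
    obtain ⟨ψ, hψ⟩ : ∃ ψ : _ → ℕ → AA n, ψ = fun x k =>
      (IsLocalization.integerNormalization (nonZeroDivisors (AA n)) (p x)).coeff k := ⟨_, rfl⟩
    have e : ∀ x k, algebraMap (AA n) K (ψ x k) = algebraMap (AA n) K (c x) * (p x).coeff k :=
      fun x k => by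
        have := congrArg (Polynomial.coeff · k) (hc' x)
        simpa [hψ, Polynomial.coeff_map, Algebra.smul_def] using this
    have li : LinearIndependent K fun x => (b x).1 :=
      b.linearIndependent.map' (Submodule.subtype _) (Submodule.ker_subtype _)
    have li2 := li.units_smul fun x => Units.mk0 (algebraMap (AA n) K (c x))
      ((map_ne_zero_iff _ inj).2 (nonZeroDivisors.ne_zero (c0 x)))
    obtain ⟨δ, d0, hδ⟩ := indep_eval (fun x j =>
      (∑ k ∈ range d, ψ x k * (LL (F j)).coeff (k + 1)) * (LL (F j0)).coeff 0 -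
        (∑ k ∈ range d, ψ x k * (LL (F j0)).coeff (k + 1)) * (LL (F j)).coeff 0) (by
      convert li2 using 1
      funext x j
      change algebraMap (AA n) K _ = algebraMap (AA n) K (c x) * (b x).1 j
      rw [← hp' x]
      change _ = _ * ((G j0).coeff 0 * (∑ k ∈ range d, (p x).coeff k * (G j).coeff (k + 1)) -
        (G j).coeff 0 * ∑ k ∈ range d, (p x).coeff k * (G j0).coeff (k + 1))
      simp only [map_sub, map_mul, map_sum, ← gc]
      have e' : ∀ i, ∑ k ∈ range d, algebraMap (AA n) K (ψ x k) * (G i).coeff (k + 1) =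
          algebraMap (AA n) K (c x) * ∑ k ∈ range d, (p x).coeff k * (G i).coeff (k + 1) :=
        fun i => by simp only [e, mul_assoc, ← mul_sum]
      rw [e', e']
      ring)
    refine ⟨ψ, δ, d0, fun x l hl j => inj ?_, hδ⟩
    simp only [map_sum, map_mul, e, ← gc, mul_assoc, ← mul_sum, (hp x).2 l hl j, mul_zero, map_zero]
  choose φ δ d0 a1 a2 using one
  refine ⟨_, φ, ∏ a ∈ range (d + 1), δ a, prod_ne_zero_iff.2 fun a _ => d0 a, tot, a1,
    fun y hy a ha => a2 a y ?_⟩
  rw [map_prod] at hy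
  exact prod_ne_zero_iff.1 hy a (mem_range.2 (by omega))

end Pool.Agent.MP_eddcad_an.H19

end
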