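import Pool.Agent.MP_eddcad_an.h19.Fock

set_option autoImplicit false

namespace Pool.Agent.MP_eddcad_an.h19

open MvPolynomial Finset

open ComplexConjugate

section Sos

variable {M X : Type} [AddCommGroup M] [Module ℂ M]

/-- `Φ` is a sum of square moduli of values of elements of `K`. -/
def Sos (K : Submodule ℂ M) (ev : X → M →ₗ[ℂ] ℂ) (Φ : X → ℂ) : Prop :=
  ∃ (ι : Type) (_ : Fintype ι) (f : ι → M), (∀ i, f i ∈ K) ∧
    ∀ x, Φ x = ∑ i, ev x (f i) * conj (ev x (f i))

variable {K : Submodule ℂ M} {ev : X → M →ₗ[ℂ] ℂ}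

theorem Sos.zero : Sos K ev fun _ => 0 :=
  ⟨Empty, inferInstance, Empty.elim, fun i => i.elim, fun _ => by simp⟩

theorem Sos.add {Φ Ψ : X → ℂ} (h : Sos K ev Φ) (h' : Sos K ev Ψ) : Sos K ev fun x => Φ x + Ψ x := by
  obtain ⟨ι, _, f, hf, h⟩ := h
  obtain ⟨κ, _, g, hg, h'⟩ := h'
  refine ⟨ι ⊕ κ, inferInstance, Sum.elim f g, ?_, fun x => ?_⟩
  · rintro (i | i)
    · exact hf i
    · exact hg i
  · simp [Fintype.sum_sum_type, h, h']

theorem Sos.smul {Φ : X → ℂ} (h : Sos K ev Φ) {c : ℝ} (hc : 0 ≤ c) :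
    Sos K ev fun x => c * Φ x := by
  obtain ⟨ι, _, f, hf, h⟩ := h
  refine ⟨ι, inferInstance, fun i => ((√c : ℝ) : ℂ) • f i, fun i => K.smul_mem _ (hf i),
    fun x => ?_⟩
  have e : ((√c : ℝ) : ℂ) * ((√c : ℝ) : ℂ) = c := by
    rw [← Complex.ofReal_mul, Real.mul_self_sqrt hc]
  simp only [h, Finset.mul_sum, map_smul, smul_eq_mul, map_mul, Complex.conj_ofReal]
  refine Finset.sum_congr rfl fun i _ => ?_
  rw [← e]
  ring

theorem Sos.congr {Φ Ψ : X → ℂ} (h : Sos K ev Φ) (e : ∀ x, Ψ x = Φ x) : Sos K ev Ψ := by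
  rwa [funext e]

theorem Sos.sum {ι : Type} (s : Finset ι) {Φ : ι → X → ℂ} (h : ∀ i ∈ s, Sos K ev (Φ i)) :
    Sos K ev fun x => ∑ i ∈ s, Φ i x := by
  classical
  induction s using Finset.induction_on with
  | empty => simpa using Sos.zero
  | insert a s ha ih =>
    exact ((h a (by simp)).add (ih fun i hi => h i (by simp [hi]))).congr fun x => by
      rw [Finset.sum_insert ha]

theorem Sos.one {f : M} (hf : f ∈ K) : Sos K ev fun x => ev x f * conj (ev x f) :=
  ⟨Unit, inferInstance, fun _ => f, fun _ => hf, fun _ => by simp⟩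

theorem Sos.reduce [FiniteDimensional ℂ K] {Φ : X → ℂ} (h : Sos K ev Φ) :
    ∃ (r : ℕ) (g : Fin r → M), r ≤ Module.finrank ℂ K ∧ (∀ t, g t ∈ K) ∧
      ∀ x, Φ x = ∑ t, ev x (g t) * conj (ev x (g t)) := by
  obtain ⟨ι, _, f, hf, h⟩ := h
  let T : Module.Dual ℂ K →ₗ[ℂ] EuclideanSpace ℂ ι :=
    { toFun := fun φ => WithLp.toLp 2 fun i => φ ⟨f i, hf i⟩
      map_add' := fun φ ψ => by ext i; simp
      map_smul' := fun c φ => by ext i; simp }
  let b := stdOrthonormalBasis ℂ (LinearMap.range T)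
  refine ⟨_, fun t => ∑ i, conj ((b t).1 i) • f i, ?_,
    fun t => K.sum_mem fun i _ => K.smul_mem _ (hf i), fun x => ?_⟩
  · exact (LinearMap.finrank_range_le T).trans (Subspace.dual_finrank_eq).le
  · let v : LinearMap.range T := ⟨T ((ev x).domRestrict K), _, rfl⟩
    have h1 := b.sum_sq_norm_inner_right v
    have h2 : ‖v‖ ^ 2 = ∑ i, ‖ev x (f i)‖ ^ 2 := by
      rw [Submodule.coe_norm, EuclideanSpace.norm_sq_eq]
      rfl
    have h3 : ∀ t, inner ℂ (b t) v = ev x (∑ i, conj ((b t).1 i) • f i) := by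
      intro t
      rw [Submodule.coe_inner, PiLp.inner_apply, map_sum]
      refine Finset.sum_congr rfl fun i _ => ?_
      simp [v, T, mul_comm]
    simp only [h3, h2] at h1
    simp only [h, Complex.mul_conj']
    exact_mod_cast h1.symm

end Sos

variable {σ : Type} [Fintype σ] [DecidableEq σ]

/-- Exponents of degree `k`. -/
noncomputable def mon (σ : Type) [Fintype σ] [DecidableEq σ] (k : ℕ) : Finset (σ →₀ ℕ) :=
  Finset.univ.finsuppAntidiag k

theorem mem_mon {k : ℕ} {α : σ →₀ ℕ} : α ∈ mon σ k ↔ α.degree = k := by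
  simp [mon, Finsupp.degree_eq_sum]

theorem support_subset_mon {A : Type} [CommRing A] {k : ℕ} {p : MvPolynomial σ A}
    (hp : p.IsHomogeneous k) : p.support ⊆ mon σ k := by
  intro α hα
  by_contra h
  exact mem_support_iff.1 hα (hp.coeff_eq_zero fun e => h (mem_mon.2 e))

/-- Functionals on polynomials with polynomial coefficients. -/
abbrev Fn (σ : Type) : Type :=
  MvPolynomial σ (MvPolynomial σ ℂ) →ₗ[MvPolynomial σ ℂ] MvPolynomial σ ℂ

/-- A monomial times a coefficient functional. -/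
noncomputable def gen (s α : σ →₀ ℕ) : Fn σ :=
  (monomial s 1 : MvPolynomial σ ℂ) • lcoeff (MvPolynomial σ ℂ) α

/-- Forms of degree `k` in `z` and linear in the coefficients of degree `j`. -/
noncomputable def bil (σ : Type) [Fintype σ] [DecidableEq σ] (j k : ℕ) : Submodule ℂ (Fn σ) :=
  Submodule.span ℂ (Set.range fun p : mon σ k × mon σ j => gen p.1.1 p.2.1)

/-- Value of a functional at a polynomial. -/
noncomputable def app (U : MvPolynomial σ (MvPolynomial σ ℂ)) : Fn σ →ₗ[ℂ] MvPolynomial σ ℂ where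
  toFun l := l U
  map_add' _ _ := rfl
  map_smul' _ _ := rfl

/-- The forms that vanish on the `j`-th power of the tautological linear form. -/
noncomputable def ker (σ : Type) [Fintype σ] [DecidableEq σ] (j k : ℕ) : Submodule ℂ (Fn σ) :=
  bil σ j k ⊓ LinearMap.ker (app (ell X ^ j))

theorem gen_mem {j k : ℕ} {s α : σ →₀ ℕ} (hs : s.degree = k) (hα : α.degree = j) :
    gen s α ∈ bil σ j k :=
  Submodule.subset_span ⟨(⟨s, mem_mon.2 hs⟩, ⟨α, mem_mon.2 hα⟩), rfl⟩

theorem X_smul_mem {j k : ℕ} (i : σ) {l : Fn σ} (hl : l ∈ ker σ j k) :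
    (X i : MvPolynomial σ ℂ) • l ∈ ker σ j (k + 1) := by
  refine ⟨?_, ?_⟩
  · refine Submodule.span_induction (p := fun l _ => (X i : MvPolynomial σ ℂ) • l ∈ bil σ j (k + 1))
      ?_ ?_ ?_ ?_ hl.1
    · rintro _ ⟨⟨s, α⟩, rfl⟩
      have e : (X i : MvPolynomial σ ℂ) • gen s.1 α.1 = gen (Finsupp.single i 1 + s.1) α.1 := by
        rw [gen, gen, smul_smul, X, monomial_mul, one_mul]
      rw [e]
      refine gen_mem ?_ (mem_mon.1 α.2)
      rw [map_add, mem_mon.1 s.2, Finsupp.degree_single, add_comm]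
    · simp
    · intro x y _ _ hx hy
      rw [smul_add]
      exact add_mem hx hy
    · intro c x _ hx
      rw [smul_comm]
      exact Submodule.smul_mem _ _ hx
  · have h : l (ell X ^ j) = 0 := hl.2
    show (X i : MvPolynomial σ ℂ) • l (ell X ^ j) = 0
    rw [h, smul_zero]

instance (j k : ℕ) : FiniteDimensional ℂ (bil σ j k) :=
  FiniteDimensional.span_of_finite ℂ (Set.finite_range _)

instance (j k : ℕ) : FiniteDimensional ℂ (ker σ j k) :=
  Submodule.finiteDimensional_of_le inf_le_left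

theorem finrank_inf_ker {V W κ : Type} [AddCommGroup V] [Module ℂ V] [AddCommGroup W] [Module ℂ W]
    [Fintype κ] (L : Submodule ℂ V) [FiniteDimensional ℂ L] (ψ : V →ₗ[ℂ] W) (w : κ → W)
    (hli : LinearIndependent ℂ w) (hw : ∀ γ, ∃ l ∈ L, ψ l = w γ) :
    Module.finrank ℂ (L ⊓ LinearMap.ker ψ : Submodule ℂ V) + Fintype.card κ ≤
      Module.finrank ℂ L := by
  have h1 := LinearMap.finrank_range_add_finrank_ker (ψ.domRestrict L)
  have h3 : Module.finrank ℂ (L ⊓ LinearMap.ker ψ : Submodule ℂ V) =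
      Module.finrank ℂ (LinearMap.ker (ψ.domRestrict L)) := by
    rw [← Submodule.finrank_map_subtype_eq L (LinearMap.ker (ψ.domRestrict L)),
      LinearMap.ker_domRestrict, Submodule.map_comap_subtype]
  have h4 : ∀ γ, w γ ∈ LinearMap.range (ψ.domRestrict L) := fun γ => by
    obtain ⟨l, hl, e⟩ := hw γ
    exact ⟨⟨l, hl⟩, e⟩
  have h5 : LinearIndependent ℂ fun γ => (⟨w γ, h4 γ⟩ : LinearMap.range (ψ.domRestrict L)) :=
    LinearIndependent.of_comp (LinearMap.range (ψ.domRestrict L)).subtype hli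
  have h6 := h5.fintype_card_le_finrank
  omega

theorem finrank_ker (j : ℕ) :
    Module.finrank ℂ (ker σ j j) + #(mon σ (2 * j)) ≤ #(mon σ j) ^ 2 := by
  have h2 : Module.finrank ℂ (bil σ j j) ≤ #(mon σ j) ^ 2 :=
    (finrank_range_le_card _).trans (by simp [sq])
  refine le_trans ?_ h2
  rw [← Fintype.card_coe (mon σ (2 * j))]
  refine finrank_inf_ker (V := Fn σ) (W := MvPolynomial σ ℂ) (bil σ j j) (app (ell X ^ j))
    (fun γ : mon σ (2 * j) => (monomial γ.1 1 : MvPolynomial σ ℂ)) ?_ ?_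
  · have := (basisMonomials σ ℂ).linearIndependent.comp (fun γ : mon σ (2 * j) => γ.1)
      Subtype.val_injective
    simpa [Function.comp_def] using this
  · rintro ⟨γ, hγ⟩
    obtain ⟨α, hle, hα⟩ := Finsupp.exists_le_degree_eq γ j (by rw [mem_mon.1 hγ]; omega)
    obtain ⟨s, rfl⟩ := exists_add_of_le hle
    have hs : s.degree = j := by
      have := mem_mon.1 hγ
      rw [map_add, hα] at this
      omega
    have hm : (α.multinomial : ℂ) ≠ 0 := by
      rw [Finsupp.multinomial_eq]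
      exact_mod_cast (Nat.multinomial_pos _ _).ne'
    refine ⟨(α.multinomial : ℂ)⁻¹ • gen s α, Submodule.smul_mem _ _ (gen_mem hs hα), ?_⟩
    rw [map_smul]
    show (α.multinomial : ℂ)⁻¹ • ((monomial s 1 : MvPolynomial σ ℂ) • coeff α (ell X ^ j)) = _
    rw [ell, coeff_linearCombination_X_pow_of_fintype, if_pos (by rw [← hα]; rfl), Finsupp.prod,
      prod_X_pow_eq_monomial, smul_eq_mul, mul_left_comm, monomial_mul, ← nsmul_eq_mul,
      ← Nat.cast_smul_eq_nsmul ℂ, smul_smul, inv_mul_cancel₀ hm, one_smul, one_mul, add_comm]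

end Pool.Agent.MP_eddcad_an.h19
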